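import Pool.Agent.helper97.GD.SpecB

/-!
# GD, block B: row BGC, greatest common divisors with a Fermat number
-/

set_option autoImplicit false

open Filter

namespace Pool.Agent.GD

theorem BGC_small (U : Ultrafilter ℕ) (N : ℕ → ℕ) (hN : ∀ k, 1 ≤ N k) (g : ℕ → ℕ)
    (h : ∀ d : ℕ, 0 < d → ∀ᶠ k in (U : Filter ℕ), g k ^ d ≤ 2 ^ N k + 1) :
    Sm U N (fun k => (g k : ℤ)) := by
  intro j
  rcases Nat.eq_zero_or_pos j with hj | hj
  · subst hj
    refine Eventually.of_forall fun k => ?_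
    rw [pow_zero]
    exact one_le_pow₀ (by norm_num)
  · filter_upwards [h (2 * j) (by omega)] with k hk
    have h2 : 2 ≤ 2 ^ N k := by
      calc 2 = 2 ^ 1 := by norm_num
        _ ≤ 2 ^ N k := Nat.pow_le_pow_right (by norm_num) (hN k)
    have h3 : (g k ^ j) ^ 2 ≤ (2 ^ N k) ^ 2 := by
      rw [← pow_mul, mul_comm j 2]
      refine hk.trans ?_
      nlinarith
    have h4 : g k ^ j ≤ 2 ^ N k := (Nat.pow_le_pow_iff_left (by norm_num)).mp h3
    change |((g k : ℕ) : ℤ)| ^ j ≤ 2 ^ N k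
    rw [Nat.abs_cast]
    exact_mod_cast h4

theorem BGC_lin (j : ℕ) : ∀ᶠ n : ℕ in atTop, n * j ≤ 2 ^ n := by
  have h := tendsto_pow_const_div_const_pow_of_one_lt 1 (one_lt_two : (1 : ℝ) < 2)
  have hj : (0 : ℝ) < 1 / ((j : ℝ) + 1) := by positivity
  filter_upwards [h.eventually (gt_mem_nhds hj)] with n hn
  rw [pow_one, div_lt_div_iff₀ (by positivity) (by positivity), one_mul] at hn
  have h1 : (n : ℝ) * j ≤ 2 ^ n := by
    have h0 : (0 : ℝ) ≤ n := Nat.cast_nonneg n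
    nlinarith
  exact_mod_cast h1

theorem BGC_F (U : Ultrafilter ℕ) (m : ℕ → ℕ) (hm : Tendsto m (U : Filter ℕ) atTop) :
    Sm U (fun k => 2 ^ m k) (fun k => (2 : ℤ) ^ m k) := by
  intro j
  filter_upwards [hm.eventually (BGC_lin j)] with k hk
  rw [abs_of_nonneg (by positivity), ← pow_mul]
  exact pow_le_pow_right₀ (by norm_num) hk

theorem BGC (hGSM : GSM_stmt) (hBLV : BLV_stmt) (hBEN : BEN_stmt) : BGC_stmt := by
  intro U m hm n f hf
  have hN : Tendsto (fun k => 2 ^ m k) (U : Filter ℕ) atTop :=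
    (tendsto_pow_atTop_atTop_of_one_lt (by norm_num : 1 < 2)).comp hm
  have hN1 : ∀ k, 1 ≤ 2 ^ m k := fun k => Nat.one_le_two_pow
  have hben := hBEN U m hm (n + 1) f hf
  obtain ⟨g, hg⟩ : ∃ g : ℕ → ℕ, ∀ k, g k = Int.gcd (f k) (2 ^ (2 ^ m k) + 1) :=
    ⟨_, fun _ => rfl⟩
  simp only [← hg] at hben ⊢
  obtain ⟨hcongr, hsm, -, hadd, hdiv, -, -⟩ := hBLV U _ hN (n + 1)
  obtain ⟨-, hsm0, -, -, -, -, hpow⟩ := hBLV U _ hN n
  by_cases hA : ∀ d : ℕ, 0 < d → ∀ᶠ k in (U : Filter ℕ), g k ^ d ≤ 2 ^ (2 ^ m k) + 1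
  · exact hsm _ (BGC_small U _ hN1 g hA)
  · simp only [not_forall, exists_prop] at hA
    obtain ⟨d₀, hd₀, hA⟩ := hA
    have hA' := Ultrafilter.eventually_not.mpr hA
    have hgF : ∀ k, g k ∣ 2 ^ (2 ^ m k) + 1 := by
      intro k
      rw [hg k]
      have h1 : ((Int.gcd (f k) (2 ^ (2 ^ m k) + 1) : ℕ) : ℤ) ∣ 2 ^ (2 ^ m k) + 1 :=
        Int.gcd_dvd_right _ _
      exact_mod_cast h1
    have hFpos : ∀ k, 0 < 2 ^ (2 ^ m k) + 1 := fun k => by positivity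
    have hgpos : ∀ k, 1 ≤ g k := fun k => Nat.pos_of_dvd_of_pos (hgF k) (hFpos k)
    have hcpos : ∀ k, 1 ≤ (2 ^ (2 ^ m k) + 1) / g k := fun k =>
      Nat.div_pos (Nat.le_of_dvd (hFpos k) (hgF k)) (hgpos k)
    have hc : ∀ d : ℕ, 0 < d → ∀ᶠ k in (U : Filter ℕ),
        ((2 ^ (2 ^ m k) + 1) / g k) ^ d ≤ 2 ^ (2 ^ m k) + 1 := by
      intro d hd
      filter_upwards [hben (max d d₀) (lt_of_lt_of_le hd (le_max_left _ _)), hA'] with k h1 h2
      rcases h1 with h1 | h1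
      · exact absurd ((Nat.pow_le_pow_right (hgpos k) (le_max_right d d₀)).trans h1) h2
      · exact (Nat.pow_le_pow_right (hcpos k) (le_max_left d d₀)).trans h1
    have hcs := BGC_small U _ hN1 (fun k => (2 ^ (2 ^ m k) + 1) / g k) hc
    refine hdiv (fun k => (((2 ^ (2 ^ m k) + 1) / g k : ℕ) : ℤ)) _ hcs
      (Eventually.of_forall fun k => ?_) ?_
    · have := hcpos k
      exact_mod_cast (by omega : (2 ^ (2 ^ m k) + 1) / g k ≠ 0)
    · refine hcongr _ _ (hadd _ _ (hpow _ (hsm0 _ (BGC_F U m hm)))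
        (hsm _ ((hGSM U _ hN).1 1))).1 (Eventually.of_forall fun k => ?_)
      have h1 : ((2 : ℤ) ^ m k).toNat = 2 ^ m k := by
        have h : ((2 : ℤ) ^ m k) = ((2 ^ m k : ℕ) : ℤ) := by push_cast; rfl
        rw [h, Int.toNat_natCast]
      have h2 : (2 ^ (2 ^ m k) + 1) / g k * g k = 2 ^ (2 ^ m k) + 1 := Nat.div_mul_cancel (hgF k)
      change (2 : ℤ) ^ ((2 : ℤ) ^ m k).toNat + 1 =
        (((2 ^ (2 ^ m k) + 1) / g k : ℕ) : ℤ) * ((g k : ℕ) : ℤ)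
      rw [h1]
      exact_mod_cast h2.symm

end Pool.Agent.GD
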