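import Pool.Agent.helper97.GD.Spec

/-!
# GD: row GFI, the two sentences on composite Fermat numbers are not provable
-/

set_option autoImplicit false

open Filter FirstOrder FirstOrder.Language

namespace Pool.Agent.GD

open Pool.Agent.UnivT

theorem GFI_large (ε : ℝ) (hε : 0 < ε) : ∀ᶠ m : ℕ in atTop, (m : ℝ) ≤ (2 : ℝ) ^ (ε * 2 ^ m) := by
  have h := tendsto_pow_const_div_const_pow_of_one_lt 1 (one_lt_two : (1 : ℝ) < 2)
  filter_upwards [h.eventually (gt_mem_nhds hε)] with m hm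
  rw [pow_one, div_lt_iff₀ (by positivity)] at hm
  have h1 : (m : ℝ) ≤ 2 ^ (m : ℝ) := by
    rw [Real.rpow_natCast]
    exact_mod_cast Nat.lt_two_pow_self.le
  exact h1.trans (Real.rpow_le_rpow_of_exponent_le one_le_two hm.le)

/-- A proper factor of `F = 2 ^ (2 ^ m) + 1` that is a value of a term is small. -/
theorem GFI_small {x y F : ℤ} (hx : 1 < x) (hy : 1 < y) (hF : x * y = F) {B : ℝ}
    (h : F ∣ x ∨ ((Int.gcd x F : ℕ) : ℝ) ≤ B) : (x : ℝ) ≤ B := by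
  rcases h with h | h
  · exfalso
    have h1 : F ≤ x := Int.le_of_dvd (by linarith) h
    nlinarith
  · have h2 : Int.gcd x F = x.natAbs := Int.gcd_eq_natAbs_left (Dvd.intro _ hF)
    rw [h2] at h
    have h3 : ((x.natAbs : ℕ) : ℤ) = x := Int.natAbs_of_nonneg (by linarith)
    have h4 : ((x.natAbs : ℕ) : ℝ) = (x : ℝ) := by
      rw [← h3]
      simp
    rwa [h4] at h

theorem GFI_core (hGCP : GCP_stmt) (x y : Lb.Term (Fin 1)) (μ : ℕ → ℕ)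
    (h : ∃ᶠ H : ℕ in atTop, H ≤ μ H ∧ 1 < x.realize (fun _ => (H : ℤ)) ∧
      1 < y.realize (fun _ => (H : ℤ)) ∧
      x.realize (fun _ => (H : ℤ)) * y.realize (fun _ => (H : ℤ)) = 2 ^ (2 ^ μ H) + 1) : False := by
  obtain ⟨ε₁, m₁, hε₁, h₁⟩ := hGCP 1 x (1 / 3) (by norm_num)
  obtain ⟨ε₂, m₂, hε₂, h₂⟩ := hGCP 1 y (1 / 3) (by norm_num)
  obtain ⟨M₁, hM₁⟩ := eventually_atTop.mp (GFI_large ε₁ hε₁)
  obtain ⟨M₂, hM₂⟩ := eventually_atTop.mp (GFI_large ε₂ hε₂)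
  obtain ⟨H, ⟨hH, hx, hy, hxy⟩, hHl⟩ :=
    (h.and_eventually (eventually_ge_atTop (m₁ + m₂ + M₁ + M₂))).exists
  have hHm : (H : ℝ) ≤ (μ H : ℝ) := by exact_mod_cast hH
  have hv₁ : ∀ _ : Fin 1, |((H : ℤ) : ℝ)| ≤ (2 : ℝ) ^ (ε₁ * 2 ^ μ H) := fun _ => by
    rw [Int.cast_natCast, abs_of_nonneg (Nat.cast_nonneg H)]
    exact hHm.trans (hM₁ _ (by omega))
  have hv₂ : ∀ _ : Fin 1, |((H : ℤ) : ℝ)| ≤ (2 : ℝ) ^ (ε₂ * 2 ^ μ H) := fun _ => by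
    rw [Int.cast_natCast, abs_of_nonneg (Nat.cast_nonneg H)]
    exact hHm.trans (hM₂ _ (by omega))
  have e₁ := GFI_small hx hy hxy (h₁ (μ H) (fun _ => (H : ℤ)) (by omega) hv₁)
  have e₂ := GFI_small hy hx (by rw [mul_comm]; exact hxy)
    (h₂ (μ H) (fun _ => (H : ℤ)) (by omega) hv₂)
  set a : ℤ := x.realize (fun _ => (H : ℤ)) with ha
  set b : ℤ := y.realize (fun _ => (H : ℤ)) with hb
  have hF : (a : ℝ) * b = (2 : ℝ) ^ (2 ^ μ H) + 1 := by exact_mod_cast hxy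
  set F : ℝ := (2 : ℝ) ^ (2 ^ μ H) + 1 with hFd
  have hF1 : 1 < F := by
    have : (0 : ℝ) < (2 : ℝ) ^ (2 ^ μ H) := by positivity
    linarith
  have ha0 : (0 : ℝ) ≤ a := by exact_mod_cast (by linarith : (0 : ℤ) ≤ a)
  have hb0 : (0 : ℝ) ≤ b := by exact_mod_cast (by linarith : (0 : ℤ) ≤ b)
  have h5 : (a : ℝ) * b ≤ F ^ (1 / 3 : ℝ) * F ^ (1 / 3 : ℝ) :=
    mul_le_mul e₁ e₂ hb0 (by positivity)
  rw [← Real.rpow_add (by linarith), hF] at h5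
  have h6 : F ^ ((1 / 3 : ℝ) + 1 / 3) < F ^ (1 : ℝ) :=
    Real.rpow_lt_rpow_of_exponent_lt hF1 (by norm_num)
  rw [Real.rpow_one] at h6
  exact absurd h5 (not_le.mpr h6)

theorem GFI_pow (k : ℕ) : ((2 : ℤ) ^ k).toNat = 2 ^ k := by
  have h : ((2 : ℤ) ^ k) = ((2 ^ k : ℕ) : ℤ) := by push_cast; rfl
  rw [h, Int.toNat_natCast]

theorem GFI (hGCP : GCP_stmt) (hGHB : GHB_stmt) : GFI_stmt := by
  refine ⟨fun h => ?_, fun h => ?_⟩
  · obtain ⟨a, x, y, hf⟩ := hGHB.1 h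
    refine GFI_core hGCP x y (fun H => (a.realize (fun _ => (H : ℤ))).toNat) (hf.mono ?_)
    rintro H ⟨h1, h2, h3, h4⟩
    refine ⟨?_, h2, h3, ?_⟩
    · omega
    · rw [GFI_pow] at h4
      exact h4
  · obtain ⟨a, x, y, hf⟩ := hGHB.2 h
    refine GFI_core hGCP x y (fun H => (a.realize (fun _ => (H : ℤ)) +
      2 ^ (a.realize (fun _ => (H : ℤ))).toNat).toNat) (hf.mono ?_)
    rintro H ⟨h1, h2, h3, h4⟩
    refine ⟨?_, h2, h3, ?_⟩
    · have h5 : (0 : ℤ) < 2 ^ (a.realize (fun _ => (H : ℤ))).toNat := by positivity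
      change H ≤ (a.realize (fun _ => (H : ℤ)) + 2 ^ (a.realize (fun _ => (H : ℤ))).toNat).toNat
      omega
    · rw [GFI_pow] at h4
      exact h4

end Pool.Agent.GD
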